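import Pool.Agent.Helper98.DISC.GoalsE2

/-!
# Project DISC, packet PFT: the highest coefficients of the partial fraction expansion of `y_n`

The class of functions is described by quotients `P / D^k`, `D = ∏_(|m| ≤ K) (X - m)`, with
`deg P < k (2K+1)`; the coefficient of order `k` at `m` is `P(m) / D'(m)^k`.
-/

open MeasureTheory Set Filter Topology Polynomial

noncomputable section

namespace Pool.Agent.Helper87.DISC

open Pool.Agent.Helper98.DISC

/-- the integers of absolute value at most `K` -/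
def II (K : ℕ) : Finset ℤ := Finset.Icc (-(K : ℤ)) K

/-- `∏_(|m| ≤ K) (X - m)` -/
def DD (K : ℕ) : ℚ[X] := ∏ m ∈ II K, (X - C (m : ℚ))

/-- the product without the factor at `m` -/
def DE (K : ℕ) (m : ℤ) : ℚ[X] := ∏ m' ∈ (II K).erase m, (X - C (m' : ℚ))

lemma mem_II {K : ℕ} {m : ℤ} : m ∈ II K ↔ -(K : ℤ) ≤ m ∧ m ≤ K := Finset.mem_Icc

lemma DD_eq {K : ℕ} {m : ℤ} (hm : m ∈ II K) : DD K = (X - C (m : ℚ)) * DE K m :=
  (Finset.mul_prod_erase _ _ hm).symm

lemma card_II (K : ℕ) : (II K).card = 2 * K + 1 := by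
  rw [II, Int.card_Icc]; omega

lemma monic_DD (K : ℕ) : (DD K).Monic := monic_prod_of_monic _ _ fun _ _ => monic_X_sub_C _

lemma natDegree_DD (K : ℕ) : (DD K).natDegree = 2 * K + 1 := by
  rw [DD, Polynomial.natDegree_prod_of_monic _ _ (fun m _ => monic_X_sub_C _)]
  simp only [natDegree_X_sub_C, Finset.sum_const, card_II, smul_eq_mul, mul_one]

lemma natDegree_DE {K : ℕ} {m : ℤ} (hm : m ∈ II K) : (DE K m).natDegree = 2 * K := by
  rw [DE, Polynomial.natDegree_prod_of_monic _ _ (fun m _ => monic_X_sub_C _)]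
  simp only [natDegree_X_sub_C, Finset.sum_const, Finset.card_erase_of_mem hm, card_II,
    smul_eq_mul, mul_one, Nat.add_sub_cancel]

lemma DE_eval_ne (K : ℕ) (m : ℤ) : (DE K m).eval (m : ℚ) ≠ 0 := by
  rw [DE, eval_prod, Finset.prod_ne_zero_iff]
  intro m' hm'
  rw [eval_sub, eval_X, eval_C, sub_ne_zero]
  intro h
  exact (Finset.mem_erase.1 hm').1 (by exact_mod_cast h.symm)

lemma DE_eval_eq {K : ℕ} {m m' : ℤ} (hm' : m' ∈ II K) (h : m' ≠ m) :
    (DE K m).eval (m' : ℚ) = 0 := by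
  rw [DE, eval_prod]
  exact Finset.prod_eq_zero (Finset.mem_erase.2 ⟨h, hm'⟩) (by simp)

lemma DD_eval_eq {K : ℕ} {m : ℤ} (hm : m ∈ II K) : (DD K).eval (m : ℚ) = 0 := by
  rw [DD_eq hm]; simp

lemma aeval_lin (z : ℂ) (m : ℤ) : aeval z (X - C (m : ℚ)) = z - m := by
  simp

lemma sub_ne_zero_of_norm {K : ℕ} {z : ℂ} (hz : (K : ℝ) < ‖z‖) {m : ℤ} (hm : m ∈ II K) :
    z - m ≠ 0 := by
  intro h
  rw [sub_eq_zero] at h
  rw [h, Complex.norm_intCast] at hz
  rw [mem_II] at hm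
  have : |m| ≤ (K : ℤ) := abs_le.2 hm
  have h2 : |(m : ℝ)| ≤ K := by exact_mod_cast this
  linarith

lemma aeval_DD_ne {K : ℕ} {z : ℂ} (hz : (K : ℝ) < ‖z‖) : aeval z (DD K) ≠ 0 := by
  rw [DD, map_prod, Finset.prod_ne_zero_iff]
  intro m hm
  rw [aeval_lin]
  exact sub_ne_zero_of_norm hz hm

lemma DD_dvd {K : ℕ} {Q : ℚ[X]} (h : ∀ m ∈ II K, Q.eval (m : ℚ) = 0) : DD K ∣ Q := by
  apply Finset.prod_dvd_of_coprime
  · intro m _ m' _ hmm
    have h1 : Pairwise (Function.onFun IsCoprime fun i : ℤ => (X - C (i : ℚ) : ℚ[X])) :=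
      pairwise_coprime_X_sub_C (fun a b hab => by exact_mod_cast hab)
    exact h1 hmm
  · intro m hm
    exact dvd_iff_isRoot.2 (h m hm)

/-- partial fractions -/
lemma pf (K : ℕ) : ∀ (k : ℕ) (P : ℚ[X]), P.degree < ((k * (2 * K + 1) : ℕ) : WithBot ℕ) →
    ∃ a : ℤ → ℕ → ℚ, (∀ z : ℂ, (K : ℝ) < ‖z‖ → aeval z P = aeval z (DD K) ^ k *
      ∑ m ∈ II K, ∑ l ∈ Finset.range k, (a m l : ℂ) / (z - m) ^ (l + 1)) ∧
      (∀ m, m ∉ II K → a m (k - 1) = 0) ∧
      (1 ≤ k → ∀ m ∈ II K, a m (k - 1) = P.eval (m : ℚ) / (DE K m).eval (m : ℚ) ^ k) := by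
  intro k
  induction k with
  | zero =>
    intro P hP
    have : P = 0 := by
      rw [← degree_eq_bot]
      by_contra h
      rw [degree_eq_bot] at h
      rw [degree_eq_natDegree h] at hP
      simp at hP
    subst this
    exact ⟨fun _ _ => 0, fun z _ => by simp, fun _ _ => rfl, fun h => by omega⟩
  | succ k ih =>
    intro P hP
    set b : ℤ → ℚ := fun m => P.eval (m : ℚ) / (DE K m).eval (m : ℚ) ^ (k + 1) with hb
    set Q : ℚ[X] := P - ∑ m ∈ II K, C (b m) * DE K m ^ (k + 1) with hQ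
    have hQ0 : ∀ m ∈ II K, Q.eval (m : ℚ) = 0 := by
      intro m hm
      rw [hQ, eval_sub, eval_finsetSum, Finset.sum_eq_single m]
      · rw [eval_mul, eval_C, eval_pow, hb]
        have := DE_eval_ne K m
        field_simp
        ring
      · intro m' _ hmm
        rw [eval_mul, eval_pow, DE_eval_eq hm (Ne.symm hmm)]
        simp
      · intro h; exact absurd hm h
    obtain ⟨P', hP'⟩ := DD_dvd hQ0
    have hQd : Q.degree < (((k + 1) * (2 * K + 1) : ℕ) : WithBot ℕ) := by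
      rw [hQ]
      apply lt_of_le_of_lt (degree_sub_le _ _)
      apply max_lt hP
      apply lt_of_le_of_lt (degree_sum_le _ _)
      rw [Finset.sup_lt_iff (WithBot.bot_lt_coe _)]
      intro m hm
      apply lt_of_le_of_lt (degree_le_natDegree)
      apply WithBot.coe_lt_coe.2
      apply lt_of_le_of_lt (natDegree_C_mul_le _ _)
      rw [natDegree_pow, natDegree_DE hm]
      nlinarith
    have hP'd : P'.degree < ((k * (2 * K + 1) : ℕ) : WithBot ℕ) := by
      by_cases h0 : P' = 0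
      · rw [h0, degree_zero]; exact WithBot.bot_lt_coe _
      · rw [degree_eq_natDegree h0]
        apply WithBot.coe_lt_coe.2
        have hQ1 : Q ≠ 0 := by
          rw [hP']
          exact mul_ne_zero (monic_DD K).ne_zero h0
        rw [degree_eq_natDegree hQ1] at hQd
        have h2 := WithBot.coe_lt_coe.1 hQd
        rw [hP', natDegree_mul (monic_DD K).ne_zero h0, natDegree_DD] at h2
        nlinarith
    obtain ⟨a', ha', -, -⟩ := ih P' hP'd
    refine ⟨fun m l => if l = k then (if m ∈ II K then b m else 0) else a' m l, ?_, ?_, ?_⟩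
    · intro z hz
      have h1 : P = DD K * P' + ∑ m ∈ II K, C (b m) * DE K m ^ (k + 1) := by
        rw [← hP', hQ]; ring
      rw [h1, map_add, map_mul, ha' z hz, map_sum]
      have h2 : ∀ m ∈ II K, aeval z (C (b m) * DE K m ^ (k + 1)) =
          aeval z (DD K) ^ (k + 1) * ((b m : ℂ) / (z - m) ^ (k + 1)) := by
        intro m hm
        rw [DD_eq hm, map_mul, map_mul, map_pow, aeval_C, aeval_lin]
        have := sub_ne_zero_of_norm hz hm
        rw [eq_ratCast (algebraMap ℚ ℂ), mul_pow]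
        field_simp
      rw [Finset.sum_congr rfl h2, ← Finset.mul_sum, ← mul_assoc, ← pow_succ', ← mul_add]
      congr 1
      rw [← Finset.sum_add_distrib]
      apply Finset.sum_congr rfl
      intro m hm
      rw [Finset.sum_range_succ]
      congr 1
      · apply Finset.sum_congr rfl
        intro l hl
        dsimp only
        rw [if_neg (Finset.mem_range.1 hl).ne]
      · dsimp only
        rw [if_pos rfl, if_pos hm]
    · intro m hm
      simp [hm]
    · intro _ m hm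
      simp [hm, hb]

/-- the class -/
def GG (K k : ℕ) (c : ℚ) (f : ℂ → ℂ) : Prop := ∃ P : ℚ[X], P.natDegree < k * (2 * K + 1) ∧
  (∀ m ∈ II K, m ≠ 0 → P.eval (m : ℚ) = 0) ∧ P.eval 0 = c * (DE K 0).eval 0 ^ k ∧
  ∀ z : ℂ, (K : ℝ) < ‖z‖ → aeval z P = f z * aeval z (DD K) ^ k

lemma GG.toPFs {K k : ℕ} {c : ℚ} {f : ℂ → ℂ} (h : GG K k c f) : PFs K k c f := by
  obtain ⟨P, hd, h0, hc, hf⟩ := h
  have hk : 1 ≤ k := by
    by_contra hk
    have : k = 0 := by omega
    subst this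
    simp at hd
  obtain ⟨a, h1, h2, h3⟩ := pf K k P (lt_of_le_of_lt degree_le_natDegree (WithBot.coe_lt_coe.2 hd))
  refine ⟨a, ?_, ?_, ?_⟩
  · intro z hz
    have h4 := h1 z hz
    rw [hf z hz, mul_comm] at h4
    exact mul_left_cancel₀ (pow_ne_zero _ (aeval_DD_ne hz)) h4
  · intro m hm
    by_cases hmK : m ∈ II K
    · rw [h3 hk m hmK, h0 m hmK hm, zero_div]
    · exact h2 m hmK
  · have h4 := h3 hk 0 (mem_II.2 ⟨by omega, by omega⟩)
    rw [h4]
    have h5 := DE_eval_ne K 0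
    simp only [Int.cast_zero] at h5 ⊢
    rw [hc, mul_div_assoc, div_self (pow_ne_zero _ h5), mul_one]

lemma GG.congr {K k : ℕ} {c : ℚ} {f g : ℂ → ℂ} (h : GG K k c f)
    (hfg : ∀ z : ℂ, (K : ℝ) < ‖z‖ → g z = f z) : GG K k c g := by
  obtain ⟨P, hd, h0, hc, hf⟩ := h
  exact ⟨P, hd, h0, hc, fun z hz => by rw [hf z hz, hfg z hz]⟩

lemma GG.add {K k : ℕ} {c d : ℚ} {f g : ℂ → ℂ} (h : GG K k c f) (h' : GG K k d g) :
    GG K k (c + d) (fun z => f z + g z) := by
  obtain ⟨P, hd, h0, hc, hf⟩ := h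
  obtain ⟨P', hd', h0', hc', hf'⟩ := h'
  refine ⟨P + P', ?_, ?_, ?_, ?_⟩
  · exact lt_of_le_of_lt (natDegree_add_le _ _) (max_lt hd hd')
  · intro m hm hm0
    rw [eval_add, h0 m hm hm0, h0' m hm hm0, add_zero]
  · rw [eval_add, hc, hc']; ring
  · intro z hz
    rw [map_add, hf z hz, hf' z hz]; ring

lemma GG.smul {K k : ℕ} {c : ℚ} {f : ℂ → ℂ} (q : ℚ) (h : GG K k c f) :
    GG K k (q * c) (fun z => (q : ℂ) * f z) := by
  obtain ⟨P, hd, h0, hc, hf⟩ := h
  refine ⟨C q * P, ?_, ?_, ?_, ?_⟩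
  · exact lt_of_le_of_lt (natDegree_C_mul_le _ _) hd
  · intro m hm hm0
    rw [eval_mul, h0 m hm hm0, mul_zero]
  · rw [eval_mul, eval_C, hc]; ring
  · intro z hz
    rw [map_mul, hf z hz, aeval_C, eq_ratCast (algebraMap ℚ ℂ)]; ring

lemma GG.mul {K j k : ℕ} {c d : ℚ} {f g : ℂ → ℂ} (h : GG K j c f) (h' : GG K k d g) :
    GG K (j + k) (c * d) (fun z => f z * g z) := by
  obtain ⟨P, hd, h0, hc, hf⟩ := h
  obtain ⟨P', hd', h0', hc', hf'⟩ := h'
  refine ⟨P * P', ?_, ?_, ?_, ?_⟩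
  · refine lt_of_le_of_lt natDegree_mul_le ?_
    rw [add_mul]; omega
  · intro m hm hm0
    rw [eval_mul, h0 m hm hm0, zero_mul]
  · rw [eval_mul, hc, hc']; ring
  · intro z hz
    rw [map_mul, hf z hz, hf' z hz]; ring

lemma GG.up {K j k : ℕ} {c : ℚ} {f : ℂ → ℂ} (hjk : j < k) (h : GG K j c f) :
    GG K k 0 f := by
  obtain ⟨P, hd, h0, hc, hf⟩ := h
  refine ⟨P * DD K ^ (k - j), ?_, ?_, ?_, ?_⟩
  · refine lt_of_le_of_lt natDegree_mul_le ?_
    rw [natDegree_pow, natDegree_DD]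
    obtain ⟨i, rfl⟩ : ∃ i, k = j + i := ⟨k - j, by omega⟩
    rw [Nat.add_sub_cancel_left, add_mul]
    omega
  · intro m hm hm0
    rw [eval_mul, h0 m hm hm0, zero_mul]
  · have : (DD K).eval 0 = 0 := by
      have := DD_eval_eq (K := K) (m := 0) (mem_II.2 ⟨by omega, by omega⟩)
      simpa using this
    rw [eval_mul, eval_pow, this, zero_pow (by omega), mul_zero, zero_mul]
  · intro z hz
    rw [map_mul, map_pow, hf z hz, mul_assoc, ← pow_add]
    congr 2
    omega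

lemma GG.zero {K k : ℕ} (hk : 1 ≤ k) : GG K k 0 (fun _ => 0) := by
  refine ⟨0, ?_, ?_, ?_, ?_⟩
  · rw [natDegree_zero]; positivity
  · intro m _ _; simp
  · simp
  · intro z _; simp

lemma GG.sum {ι : Type*} {K k : ℕ} (hk : 1 ≤ k) (s : Finset ι) (c : ι → ℚ) (f : ι → ℂ → ℂ)
    (h : ∀ i ∈ s, GG K k (c i) (f i)) :
    GG K k (∑ i ∈ s, c i) (fun z => ∑ i ∈ s, f i z) := by
  classical
  induction s using Finset.induction_on with
  | empty => simpa using GG.zero hk
  | insert i s hi ih =>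
    have h1 := (h i (Finset.mem_insert_self _ _)).add
      (ih fun j hj => h j (Finset.mem_insert_of_mem hj))
    rw [Finset.sum_insert hi]
    refine h1.congr fun z _ => ?_
    rw [Finset.sum_insert hi]

/-- products of `(z + c)⁻¹` -/
lemma GG.prodInv {ι : Type*} {K : ℕ} (s : Finset ι) (hs : s.Nonempty) (ct : ι → ℤ)
    (hct : ∀ i ∈ s, |ct i| ≤ K) (h0 : ∃ i ∈ s, ct i = 0) (h1 : ∃ i ∈ s, ct i ≠ 0) :
    GG K s.card 0 (fun z => ∏ i ∈ s, (z + ct i)⁻¹) := by
  have hmem : ∀ i ∈ s, -ct i ∈ II K := fun i hi => by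
    have := abs_le.1 (hct i hi)
    exact mem_II.2 ⟨by omega, by omega⟩
  refine ⟨∏ i ∈ s, DE K (-ct i), ?_, ?_, ?_, ?_⟩
  · refine lt_of_le_of_lt (natDegree_prod_le _ _) ?_
    rw [Finset.sum_congr rfl fun i hi => natDegree_DE (hmem i hi), Finset.sum_const, smul_eq_mul]
    have := hs.card_pos
    nlinarith
  · intro m hm hm0
    obtain ⟨i, hi, hi0⟩ := h0
    rw [eval_prod]
    exact Finset.prod_eq_zero hi (DE_eval_eq hm (by rw [hi0]; simpa using hm0))
  · obtain ⟨i, hi, hi0⟩ := h1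
    rw [eval_prod, zero_mul]
    refine Finset.prod_eq_zero hi ?_
    have := DE_eval_eq (K := K) (m := -ct i) (m' := 0) (mem_II.2 ⟨by omega, by omega⟩)
      (by intro h; apply hi0; omega)
    simpa using this
  · intro z hz
    rw [map_prod, ← Finset.prod_const, ← Finset.prod_mul_distrib]
    apply Finset.prod_congr rfl
    intro i hi
    rw [DD_eq (hmem i hi), map_mul, aeval_lin]
    have h2 := sub_ne_zero_of_norm hz (hmem i hi)
    push_cast at h2 ⊢
    rw [sub_neg_eq_add] at h2 ⊢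
    field_simp

/-- `d_λ` as a rational number -/
def dlq {k : ℕ} (lam : Fin k → Fin (k + 1)) : ℚ :=
  (∏ i, ∏ j ∈ Finset.Ioi i, ((ell lam i : ℚ) - ell lam j)) / ∏ i, ((ell lam i).factorial : ℚ)

lemma dl_eq {k : ℕ} (lam : Fin k → Fin (k + 1)) : dl lam = (dlq lam : ℂ) := by
  simp only [dl, dlq]; push_cast; rfl

lemma sk_zero (z : ℂ) : sk 0 z = 1 := by
  have : prt 0 = {fun i => 0} := by decide
  simp [sk, this, dl]

lemma sk_one (z : ℂ) : sk 1 z = z⁻¹ := by
  have : prt 1 = {fun i => 1} := by decide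
  simp [sk, this, dl, ell]

/-- the boxes -/
def bx {k : ℕ} (lam : Fin k → Fin (k + 1)) : Finset (Σ _ : Fin k, ℕ) :=
  Finset.univ.sigma fun i => Finset.range (lam i)

lemma mem_bx {k : ℕ} {lam : Fin k → Fin (k + 1)} {x : Σ _ : Fin k, ℕ} :
    x ∈ bx lam ↔ x.2 < (lam x.1 : ℕ) := by
  simp [bx]

lemma card_bx {k : ℕ} {lam : Fin k → Fin (k + 1)} (h : lam ∈ prt k) : (bx lam).card = k := by
  rw [prt, Finset.mem_filter] at h
  rw [bx, Finset.card_sigma]
  simpa using h.2.2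

lemma bx_zero {k : ℕ} (hk : 2 ≤ k) {lam : Fin k → Fin (k + 1)} (h : lam ∈ prt k) :
    1 ≤ (lam ⟨0, by omega⟩ : ℕ) := by
  rw [prt, Finset.mem_filter] at h
  by_contra h0
  have h1 : ∀ i, (lam i : ℕ) = 0 := by
    intro i
    have h2 : lam i ≤ lam ⟨0, by omega⟩ := h.2.1 (by rw [Fin.le_def]; exact Nat.zero_le _)
    rw [Fin.le_def] at h2
    omega
  have h3 := h.2.2
  rw [Finset.sum_eq_zero fun i _ => h1 i] at h3
  omega

lemma bx_one {k : ℕ} (hk : 2 ≤ k) {lam : Fin k → Fin (k + 1)} (h : lam ∈ prt k) :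
    2 ≤ (lam ⟨0, by omega⟩ : ℕ) ∨ 1 ≤ (lam ⟨1, by omega⟩ : ℕ) := by
  rw [prt, Finset.mem_filter] at h
  by_contra h0
  push Not at h0
  have h1 : ∀ i : Fin k, i ≠ ⟨0, by omega⟩ → (lam i : ℕ) = 0 := by
    intro i hi
    have h2 : lam i ≤ lam ⟨1, by omega⟩ := h.2.1 (by
      rw [Fin.le_def]
      have : (i : ℕ) ≠ 0 := fun h => hi (Fin.ext h)
      show 1 ≤ (i : ℕ)
      omega)
    rw [Fin.le_def] at h2
    omega
  have h3 := h.2.2
  rw [Finset.sum_eq_single (⟨0, by omega⟩ : Fin k) (fun i _ hi => h1 i hi)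
    (fun h => absurd (Finset.mem_univ _) h)] at h3
  omega

lemma GG.box {K k : ℕ} (hk : 2 ≤ k) (hK : k ≤ K + 1) {lam : Fin k → Fin (k + 1)}
    (h : lam ∈ prt k) :
    GG K k 0 (fun z => ∏ i, ∏ j ∈ Finset.range (lam i), (z + j - i)⁻¹) := by
  have hz := bx_zero hk h
  have h1 := bx_one hk h
  have h2 : GG K (bx lam).card 0 (fun z => ∏ x ∈ bx lam, (z + ((x.2 : ℤ) - (x.1 : ℕ) : ℤ))⁻¹) := by
    apply GG.prodInv
    · exact ⟨⟨⟨0, by omega⟩, 0⟩, mem_bx.2 hz⟩
    · rintro ⟨i, j⟩ hx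
      have h3 : j < (lam i : ℕ) := mem_bx.1 hx
      have h4 := i.2
      have h5 := (lam i).2
      rw [abs_le]
      constructor
      · show -(K : ℤ) ≤ (j : ℤ) - (i : ℕ)
        omega
      · show (j : ℤ) - (i : ℕ) ≤ (K : ℤ)
        omega
    · exact ⟨⟨⟨0, by omega⟩, 0⟩, mem_bx.2 hz, by simp⟩
    · rcases h1 with h1 | h1
      · exact ⟨⟨⟨0, by omega⟩, 1⟩, mem_bx.2 h1, by simp⟩
      · exact ⟨⟨⟨1, by omega⟩, 0⟩, mem_bx.2 h1, by simp⟩
  rw [card_bx h] at h2
  refine h2.congr fun z _ => ?_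
  rw [bx, Finset.prod_sigma]
  apply Finset.prod_congr rfl
  intro i _
  apply Finset.prod_congr rfl
  intro j _
  push_cast
  rw [add_sub_assoc]

lemma sk_GG {K k : ℕ} (hk : 2 ≤ k) (hK : k ≤ K + 1) : GG K k 0 (sk k) := by
  have h1 := GG.sum (K := K) (k := k) (by omega) (prt k) (fun _ => 0)
    (fun lam z => ((dlq lam ^ 2 : ℚ) : ℂ) *
      ∏ i, ∏ j ∈ Finset.range (lam i), (z + j - i)⁻¹) (fun lam hlam => by
      have := (GG.box hk hK hlam).smul (dlq lam ^ 2)
      rwa [mul_zero] at this)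
  rw [Finset.sum_const_zero] at h1
  refine h1.congr fun z _ => ?_
  rw [sk]
  apply Finset.sum_congr rfl
  intro lam _
  rw [dl_eq]
  push_cast
  rfl

lemma s1_GG (K : ℕ) : GG K 1 1 (sk 1) := by
  have h0 : (0 : ℤ) ∈ II K := mem_II.2 ⟨by omega, by omega⟩
  refine ⟨DE K 0, ?_, ?_, ?_, ?_⟩
  · rw [natDegree_DE h0]; omega
  · intro m hm hm0
    exact DE_eval_eq hm hm0
  · rw [one_mul, pow_one]
  · intro z hz
    rw [sk_one, DD_eq h0, map_mul, aeval_lin, pow_one]
    have h2 := sub_ne_zero_of_norm hz h0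
    rw [Int.cast_zero, sub_zero] at h2 ⊢
    field_simp

lemma yz_mul (z : ℂ) : yz z * Sz z = th (Sz z) := by
  rw [yz, mul_assoc, PowerSeries.inv_mul_cancel, mul_one]
  rw [← PowerSeries.coeff_zero_eq_constantCoeff_apply, Sz, PowerSeries.coeff_mk, sk_zero]
  exact one_ne_zero

lemma yk_zero (z : ℂ) : yk 0 z = 0 := by
  rw [yk, yz, th, PowerSeries.coeff_zero_eq_constantCoeff_apply]
  simp

lemma yk_rec {n : ℕ} (hn : 1 ≤ n) (z : ℂ) :
    yk n z = n * sk n z - ∑ j ∈ Finset.Ico 1 n, yk j z * sk (n - j) z := by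
  have h := congrArg (PowerSeries.coeff n) (yz_mul z)
  rw [PowerSeries.coeff_mul, Finset.Nat.sum_antidiagonal_eq_sum_range_succ
    (fun i j => PowerSeries.coeff i (yz z) * PowerSeries.coeff j (Sz z)), Finset.sum_range_succ,
    Nat.sub_self, Finset.range_eq_Ico, Finset.sum_eq_sum_Ico_succ_bot (by omega : 0 < n)] at h
  have h1 : ∀ i, PowerSeries.coeff i (Sz z) = sk i z := fun i => PowerSeries.coeff_mk _ _
  have h2 : ∀ i, PowerSeries.coeff i (yz z) = yk i z := fun i => rfl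
  have h3 : PowerSeries.coeff n (th (Sz z)) = n * sk n z := by
    obtain ⟨m, rfl⟩ : ∃ m, n = m + 1 := ⟨n - 1, by omega⟩
    rw [th, PowerSeries.coeff_succ_X_mul, PowerSeries.coeff_derivative, h1]
    push_cast
    ring
  simp only [h1, h2, yk_zero, zero_mul, zero_add, sk_zero, mul_one] at h
  rw [h3] at h
  rw [← h]
  ring

lemma yk_GG (K : ℕ) : ∀ n : ℕ, 1 ≤ n → n ≤ K + 1 → GG K n ((-1) ^ (n - 1)) (yk n) := by
  intro n
  induction n using Nat.strong_induction_on with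
  | _ n ih =>
    intro hn hnK
    rcases Nat.eq_or_lt_of_le hn with h1 | h1
    · subst h1
      refine (s1_GG K).congr fun z _ => ?_
      rw [yk_rec le_rfl]
      simp
    · have h2 : ∀ j ∈ Finset.Ico 1 n, GG K n ((-1) ^ (j - 1) * if n - j = 1 then 1 else 0)
          (fun z => yk j z * sk (n - j) z) := by
        intro j hj
        rw [Finset.mem_Ico] at hj
        have h3 := ih j hj.2 hj.1 (by omega)
        have h4 : GG K (n - j) (if n - j = 1 then 1 else 0) (sk (n - j)) := by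
          split_ifs with h5
          · rw [h5]; exact s1_GG K
          · exact sk_GG (by omega) (by omega)
        have h5 := h3.mul h4
        rwa [Nat.add_sub_cancel' hj.2.le] at h5
      have h3 := ((sk_GG (K := K) (k := n) h1 hnK).smul n).add
        ((GG.sum hn _ _ _ h2).smul (-1))
      have h4 : (n : ℚ) * 0 + -1 * ∑ j ∈ Finset.Ico 1 n, ((-1 : ℚ) ^ (j - 1) *
          if n - j = 1 then 1 else 0) = (-1) ^ (n - 1) := by
        rw [Finset.sum_eq_single (n - 1)]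
        · rw [if_pos (by omega)]
          obtain ⟨m, rfl⟩ : ∃ m, n = m + 2 := ⟨n - 2, by omega⟩
          rw [show m + 2 - 1 - 1 = m by omega, show m + 2 - 1 = m + 1 by omega, pow_succ]
          ring
        · intro j hj hj1
          rw [Finset.mem_Ico] at hj
          rw [if_neg (by omega), mul_zero]
        · intro h
          exact absurd (Finset.mem_Ico.2 ⟨by omega, by omega⟩) h
      rw [h4] at h3
      refine h3.congr fun z _ => ?_
      rw [yk_rec hn]
      push_cast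
      ring

theorem PFT_holds : S_PFT := by
  intro n hn
  exact (yk_GG (n - 1) n hn (by omega)).toPFs

end Pool.Agent.Helper87.DISC
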